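import Pool.Agent.W169.AF.Stm2
import Pool.Agent.W240.AF.MV2

set_option autoImplicit false

/-!
Project AF (helper169), part MV2w: the mixed mean square, wide version (adapted from helper240's MV2, helper421).
-/

namespace Pool.Agent.W421.AF

open Finset Filter Topology MeasureTheory
open Pool.Agent.H24R2.DZ (NN bb mo cc yy ra SSq SHar SMo)
open Pool.Agent.W169.AF
open Pool.Agent.W240.AF (FS_sieve FS_one FS_mono FS_lin)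

theorem mv2w (hAPX : S_APXw) (hMo : SMo) : S_MV2w := by
  intro θ hθ hθ'
  obtain ⟨Ca, hCa, hA⟩ := hAPX
  obtain ⟨Cm, hCm, hM⟩ := hMo θ hθ (by linarith)
  refine ⟨24 * Real.exp (3 / 2) * Cm + 96 * Ca ^ 2, 3, by positivity, by norm_num, ?_⟩
  intro Q hQ s β hs hs' hβ hsQ
  have hQ1 : (1 : ℝ) ≤ Q := by linarith
  have hQ0 : (0 : ℝ) < Q := by linarith
  obtain ⟨L, hL⟩ : ∃ L, L = Real.log (Q : ℝ) := ⟨_, rfl⟩
  have hL1 : 1 ≤ L := by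
    rw [hL, Real.le_log_iff_exp_le hQ0]
    have := Real.exp_one_lt_d9
    linarith
  obtain ⟨hM1, -⟩ := hM L β hL1
  rw [← hL]
  obtain ⟨W, hW⟩ : ∃ W, W = (1 + L * ‖β‖) ^ 20 * Real.exp (2 * θ * L * ‖β‖) := ⟨_, rfl⟩
  have hW1 : 1 ≤ W := by
    rw [hW]
    have ha : (1 : ℝ) ≤ (1 + L * ‖β‖) ^ 20 := by
      apply one_le_pow₀
      have : 0 ≤ L * ‖β‖ := by positivity
      linarith
    have hb : 1 ≤ Real.exp (2 * θ * L * ‖β‖) := by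
      apply Real.one_le_exp
      positivity
    exact one_le_mul_of_one_le_of_one_le ha hb
  -- the coefficients
  obtain ⟨α, hα⟩ : ∃ α : ℕ → ℂ, α = fun n => cc (bb θ L β) n * (n : ℂ) ^ (-s) := ⟨_, rfl⟩
  have hN : ((NQ Q : ℕ) : ℝ) ≤ (Q : ℝ) ^ (3 / 2 : ℝ) := Nat.floor_le (by positivity)
  have hN2 : ((NQ Q : ℕ) : ℝ) ≤ (Q : ℝ) ^ 2 := by
    refine hN.trans ?_
    rw [← Real.rpow_natCast (Q : ℝ) 2]
    exact Real.rpow_le_rpow_of_exponent_le hQ1 (by norm_num)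
  have hαn : ∀ n ∈ Icc 1 (NQ Q), ‖α n‖ ^ 2 ≤
      Real.exp (3 / 2) * ((n : ℝ) ^ (-(1 + 1 / L)) * ‖cc (bb θ L β) n‖ ^ 2) := by
    intro n hn
    rw [mem_Icc] at hn
    have hn1 : (1 : ℝ) ≤ n := by exact_mod_cast hn.1
    have hn0 : (0 : ℝ) < n := by linarith
    have hnN : (n : ℝ) ≤ (Q : ℝ) ^ (3 / 2 : ℝ) := le_trans (by exact_mod_cast hn.2) hN
    have e1 : ‖α n‖ ^ 2 = ‖cc (bb θ L β) n‖ ^ 2 * (n : ℝ) ^ (-(2 * s.re)) := by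
      rw [hα]
      simp only [norm_mul, mul_pow]
      rw [Complex.norm_natCast_cpow_of_pos (by omega), ← Real.rpow_natCast ((n : ℝ) ^ (-s).re) 2,
        ← Real.rpow_mul hn0.le]
      congr 2
      rw [Complex.neg_re]
      push_cast
      ring
    have e2 : (n : ℝ) ^ (-(2 * s.re)) ≤ (n : ℝ) ^ (-1 : ℝ) :=
      Real.rpow_le_rpow_of_exponent_le hn1 (by linarith)
    have e3 : (n : ℝ) ^ (-1 : ℝ) = (n : ℝ) ^ (-(1 + 1 / L)) * (n : ℝ) ^ (1 / L) := by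
      rw [← Real.rpow_add hn0]; congr 1; ring
    have e4 : (n : ℝ) ^ (1 / L) ≤ Real.exp (3 / 2) := by
      rw [Real.rpow_def_of_pos hn0]
      apply Real.exp_le_exp.mpr
      have h1 : Real.log n ≤ 3 / 2 * L := by
        rw [hL, ← Real.log_rpow hQ0]
        exact Real.log_le_log hn0 hnN
      rw [mul_one_div, div_le_iff₀ (by linarith)]
      exact h1
    rw [e1]
    calc ‖cc (bb θ L β) n‖ ^ 2 * (n : ℝ) ^ (-(2 * s.re))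
        ≤ ‖cc (bb θ L β) n‖ ^ 2 * ((n : ℝ) ^ (-(1 + 1 / L)) * Real.exp (3 / 2)) := by
          refine mul_le_mul_of_nonneg_left ?_ (by positivity)
          refine e2.trans ?_
          rw [e3]
          exact mul_le_mul_of_nonneg_left e4 (by positivity)
      _ = _ := by ring
  have hαs : ∑ n ∈ Icc 1 (NQ Q), ‖α n‖ ^ 2 ≤ Real.exp (3 / 2) * (Cm * W) := by
    refine (sum_le_sum hαn).trans ?_
    rw [← mul_sum]
    refine mul_le_mul_of_nonneg_left ?_ (Real.exp_pos _).le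
    refine (hM1 (NQ Q)).trans (le_of_eq ?_)
    rw [hW]; ring
  -- pointwise bound
  have hpt : ∀ q : ℕ, 2 ≤ q → q ≤ Q → ∀ χ ∈ PC q, ‖LF q χ s * MX θ Q q χ (s + β)‖ ^ 2 ≤
      2 * ‖∑ n ∈ Icc 1 (NQ Q), α n * χ (n : ZMod q)‖ ^ 2 + 8 * Ca ^ 2 := by
    intro q hq hqQ χ hχ
    have h1 := hA θ hθ hθ' Q q hq hqQ χ hχ s β hs (by linarith) hβ
    have hSX : SX θ Q q χ s β = ∑ n ∈ Icc 1 (NQ Q), α n * χ (n : ZMod q) := by
      unfold SX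
      rw [← hL, hα]
      refine sum_congr rfl fun n _ => ?_
      ring
    rw [hSX] at h1
    have h2 : Ca * (1 + ‖s‖) * (Q : ℝ) ^ (-(1 / 6) : ℝ) ≤ 2 * Ca := by
      have h3 : 1 + ‖s‖ ≤ 2 * (Q : ℝ) ^ (1 / 6 : ℝ) := by
        have h4 : (1 : ℝ) ≤ (Q : ℝ) ^ (1 / 6 : ℝ) := Real.one_le_rpow hQ1 (by norm_num)
        have h5 : (Q : ℝ) ^ (1 / 20 : ℝ) ≤ (Q : ℝ) ^ (1 / 6 : ℝ) :=
          Real.rpow_le_rpow_of_exponent_le hQ1 (by norm_num)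
        linarith
      calc Ca * (1 + ‖s‖) * (Q : ℝ) ^ (-(1 / 6) : ℝ)
          ≤ Ca * (2 * (Q : ℝ) ^ (1 / 6 : ℝ)) * (Q : ℝ) ^ (-(1 / 6) : ℝ) := by
            refine mul_le_mul_of_nonneg_right ?_ (by positivity)
            exact mul_le_mul_of_nonneg_left h3 hCa.le
        _ = 2 * Ca * ((Q : ℝ) ^ (1 / 6 : ℝ) * (Q : ℝ) ^ (-(1 / 6) : ℝ)) := by ring
        _ = 2 * Ca := by
            rw [← Real.rpow_add hQ0]
            norm_num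
    have h6 := h1.trans h2
    obtain ⟨A, hA'⟩ : ∃ A, A = LF q χ s * MX θ Q q χ (s + β) := ⟨_, rfl⟩
    obtain ⟨B, hB'⟩ : ∃ B, B = ∑ n ∈ Icc 1 (NQ Q), α n * χ (n : ZMod q) := ⟨_, rfl⟩
    rw [← hA', ← hB'] at h6 ⊢
    have h7 : ‖A‖ ≤ ‖B‖ + 2 * Ca := by
      calc ‖A‖ = ‖B + (A - B)‖ := by ring_nf
        _ ≤ ‖B‖ + ‖A - B‖ := norm_add_le _ _
        _ ≤ _ := by linarith
    have h8 := norm_nonneg A
    nlinarith [sq_nonneg (‖B‖ - 2 * Ca), norm_nonneg B]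
  refine (FS_mono hpt).trans ?_
  rw [FS_lin Q 2 (8 * Ca ^ 2)
    (fun q χ => ‖∑ n ∈ Icc 1 (NQ Q), α n * χ (n : ZMod q)‖ ^ 2)]
  have k1 := FS_sieve (NQ Q) Q α
  have k2 := FS_one Q
  have hQ2 : (1 : ℝ) ≤ (Q : ℝ) ^ 2 := one_le_pow₀ hQ1
  have hsum0 : 0 ≤ ∑ n ∈ Icc 1 (NQ Q), ‖α n‖ ^ 2 := sum_nonneg fun _ _ => by positivity
  have k3 : FS Q (fun q χ => ‖∑ n ∈ Icc 1 (NQ Q), α n * χ (n : ZMod q)‖ ^ 2) ≤
      12 * (Q : ℝ) ^ 2 * (Real.exp (3 / 2) * (Cm * W)) := by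
    refine k1.trans ?_
    refine mul_le_mul (by linarith) hαs hsum0 (by positivity)
  have k4 : FS Q (fun _ _ => 1) ≤ 12 * (Q : ℝ) ^ 2 := by linarith
  have k5 : 8 * Ca ^ 2 * FS Q (fun _ _ => 1) ≤ 8 * Ca ^ 2 * (12 * (Q : ℝ) ^ 2) :=
    mul_le_mul_of_nonneg_left k4 (by positivity)
  have k6 : 8 * Ca ^ 2 * (12 * (Q : ℝ) ^ 2) ≤ 8 * Ca ^ 2 * (12 * (Q : ℝ) ^ 2) * W :=
    le_mul_of_one_le_right (by positivity) hW1
  have k7 : (24 * Real.exp (3 / 2) * Cm + 96 * Ca ^ 2) * (Q : ℝ) ^ 2 * (1 + L * ‖β‖) ^ 20 *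
      Real.exp (2 * θ * L * ‖β‖) = (24 * Real.exp (3 / 2) * Cm + 96 * Ca ^ 2) * (Q : ℝ) ^ 2 * W := by
    rw [hW]; ring
  rw [k7]
  calc _ ≤ 2 * (12 * (Q : ℝ) ^ 2 * (Real.exp (3 / 2) * (Cm * W))) +
        8 * Ca ^ 2 * (12 * (Q : ℝ) ^ 2) * W := by linarith
    _ = _ := by ring

end Pool.Agent.W421.AF
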